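import Mathlib

set_option autoImplicit false

/-!
# Fewest edges for extremal c-rank sums (MP_47eac2_co, Q1)

`M(n) = n + 1` for `n ≤ 3` and `M(n) = n + 2` for `n ≥ 4`; the fewest edges of a graph attaining
`M(n)` is `0` for `n ≤ 3` and `3` for `n ≥ 4`.
-/

namespace Pool.Agent.Results.MP_47eac2_co.FewestEdgesMaxSum

open SimpleGraph Finset

/-- `St(W)`: the common neighbourhood of `W` (all vertices if `W` is empty). -/
def St {V : Type} (G : SimpleGraph V) (W : Set V) : Set V := {v | ∀ w ∈ W, G.Adj w v}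

/-- A flat of `G` is a set of the form `St(W)`. -/
def IsFlat {V : Type} (G : SimpleGraph V) (F : Set V) : Prop := ∃ W : Set V, F = St G W

/-- The c-rank: the height of the lattice of flats, i.e. the largest `k` such that there is a chain
`p_0 < p_1 < ⋯ < p_k` of flats. -/
noncomputable def crk {V : Type} (G : SimpleGraph V) : ℕ :=
  sSup {k | ∃ p : Fin (k + 1) → Set V, StrictMono p ∧ ∀ i, IsFlat G (p i)}

/-- `M(n)`: the maximum of `c-rk G + c-rk Gᶜ` over the graphs with `n` vertices. -/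
noncomputable def M (n : ℕ) : ℕ := sSup {s | ∃ G : SimpleGraph (Fin n), crk G + crk Gᶜ = s}

/-! ### Triangular systems -/

/-- A triangular system of size `k`. -/
def Tri {V : Type} (G : SimpleGraph V) (k : ℕ) : Prop :=
  ∃ w z : Fin k → V, (∀ i j, i < j → G.Adj (w i) (z j)) ∧ ∀ i, ¬ G.Adj (w i) (z i)

theorem tri_of_chain {V : Type} (G : SimpleGraph V) (k : ℕ) (p : Fin (k + 1) → Set V)
    (hp : StrictMono p) (hf : ∀ i, IsFlat G (p i)) : Tri G k := by
  -- use the decreasing chain `F i = p (k - i)`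
  choose W hW using hf
  have hlt : ∀ i : Fin k, ∃ x, x ∈ p ⟨k - i.val, by omega⟩ ∧ x ∉ p ⟨k - i.val - 1, by omega⟩ := by
    intro i
    have : p ⟨k - i.val - 1, by omega⟩ < p ⟨k - i.val, by omega⟩ := hp (by
      have := i.2
      rw [Fin.lt_def]
      show k - i.val - 1 < k - i.val
      omega)
    exact Set.exists_of_ssubset this
  choose z hz1 hz2 using hlt
  have hw : ∀ i : Fin k, ∃ w ∈ W ⟨k - i.val - 1, by omega⟩, ¬ G.Adj w (z i) := by
    intro i
    have h := hz2 i
    rw [hW ⟨k - i.val - 1, by omega⟩] at h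
    simp only [St, Set.mem_setOf_eq, not_forall] at h
    obtain ⟨w, h1, h2⟩ := h
    exact ⟨w, h1, h2⟩
  choose w hw1 hw2 using hw
  refine ⟨w, z, ?_, hw2⟩
  intro i j hij
  have h1 : z j ∈ p ⟨k - i.val - 1, by omega⟩ := by
    have h2 : p ⟨k - j.val, by omega⟩ ≤ p ⟨k - i.val - 1, by omega⟩ := hp.monotone (by
      rw [Fin.le_def]
      show k - j.val ≤ k - i.val - 1
      have : i.val < j.val := hij
      omega)
    exact h2 (hz1 j)
  rw [hW] at h1
  exact h1 _ (hw1 i)

theorem chain_of_tri {V : Type} (G : SimpleGraph V) (k : ℕ) (h : Tri G k) :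
    ∃ p : Fin (k + 1) → Set V, StrictMono p ∧ ∀ i, IsFlat G (p i) := by
  obtain ⟨w, z, h1, h2⟩ := h
  refine ⟨fun i => St G {x | ∃ j : Fin k, j.val + i.val < k ∧ x = w j}, ?_, fun i => ⟨_, rfl⟩⟩
  rw [Fin.strictMono_iff_lt_succ]
  intro i
  constructor
  · intro v hv x hx
    obtain ⟨j, hj, rfl⟩ := hx
    apply hv
    refine ⟨j, ?_, rfl⟩
    simp only [Fin.val_castSucc, Fin.val_succ] at hj ⊢
    omega
  · intro hle
    have hk : k - i.val - 1 < k := by have := i.2; omega
    have hmem : z ⟨k - i.val - 1, hk⟩ ∈ St G {x | ∃ j : Fin k, j.val + i.succ.val < k ∧ x = w j} := by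
      intro x hx
      obtain ⟨j, hj, rfl⟩ := hx
      apply h1
      rw [Fin.lt_def]
      simp only [Fin.val_succ] at hj
      show j.val < k - i.val - 1
      omega
    have := hle hmem
    exact h2 ⟨k - i.val - 1, hk⟩ (this _ ⟨⟨k - i.val - 1, hk⟩, by
      simp only [Fin.val_castSucc]
      have := i.2; omega, rfl⟩)

theorem Tri.inj {V : Type} {G : SimpleGraph V} {k : ℕ} {w z : Fin k → V}
    (h1 : ∀ i j, i < j → G.Adj (w i) (z j)) (h2 : ∀ i, ¬ G.Adj (w i) (z i)) :
    Function.Injective w ∧ Function.Injective z := by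
  constructor
  · intro i j hij
    by_contra hne
    rcases lt_or_gt_of_ne hne with h | h
    · exact h2 j (hij ▸ h1 i j h)
    · exact h2 i (hij ▸ h1 j i h)
  · intro i j hij
    by_contra hne
    rcases lt_or_gt_of_ne hne with h | h
    · exact h2 i (by have := h1 i j h; rwa [← hij] at this)
    · exact h2 j (by have := h1 j i h; rwa [hij] at this)

theorem Tri.mono {V : Type} {G : SimpleGraph V} {k l : ℕ} (hkl : l ≤ k) (h : Tri G k) :
    Tri G l := by
  obtain ⟨w, z, h1, h2⟩ := h
  exact ⟨fun i => w (Fin.castLE hkl i), fun i => z (Fin.castLE hkl i),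
    fun i j hij => h1 _ _ hij, fun i => h2 _⟩

section fin

variable {V : Type} [Fintype V] {G : SimpleGraph V}

theorem Tri.le_card {k : ℕ} (h : Tri G k) : k ≤ Fintype.card V := by
  obtain ⟨w, z, h1, h2⟩ := h
  simpa using Fintype.card_le_of_injective w (Tri.inj h1 h2).1

theorem crk_set : {k | ∃ p : Fin (k + 1) → Set V, StrictMono p ∧ ∀ i, IsFlat G (p i)} =
    {k | Tri G k} := by
  ext k
  exact ⟨fun ⟨p, h1, h2⟩ => tri_of_chain G k p h1 h2, fun h => chain_of_tri G k h⟩

theorem tri_crk : Tri G (crk G) := by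
  unfold crk
  rw [crk_set]
  have h0 : Tri G 0 := ⟨fun i => i.elim0, fun i => i.elim0, fun i => i.elim0, fun i => i.elim0⟩
  have hne : {k | Tri G k}.Nonempty := ⟨0, h0⟩
  have hbdd : BddAbove {k | Tri G k} := ⟨Fintype.card V, fun k hk => Tri.le_card hk⟩
  exact Nat.sSup_mem hne hbdd

theorem le_crk {k : ℕ} (h : Tri G k) : k ≤ crk G := by
  unfold crk
  rw [crk_set]
  exact le_csSup ⟨Fintype.card V, fun k hk => Tri.le_card hk⟩ h

/-- Piercing boxes: if any two boxes overlap in one of the two coordinates, then two lines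
meet all of them. -/
theorem pierce (b d b' d' : V → ℕ) (h1 : ∀ x, b x ≤ d x) (h2 : ∀ x, b' x ≤ d' x)
    (h : ∀ x y, x ≠ y → (b x ≤ d y ∧ b y ≤ d x) ∨ (b' x ≤ d' y ∧ b' y ≤ d' x)) :
    ∃ t t' : ℕ, ∀ x, (b x ≤ t ∧ t ≤ d x) ∨ (b' x ≤ t' ∧ t' ≤ d' x) := by
  classical
  set P : Finset (V × V) := univ.filter
    (fun p => p.1 ≠ p.2 ∧ ¬ (b' p.1 ≤ d' p.2 ∧ b' p.2 ≤ d' p.1)) with hP
  set t := P.sup (fun p => min (b p.1) (b p.2)) with ht
  have key : ∀ x y, x ≠ y → ¬ (b' x ≤ d' y ∧ b' y ≤ d' x) →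
      (b x ≤ t ∧ t ≤ d x) ∨ (b y ≤ t ∧ t ≤ d y) := by
    intro x y hxy hn
    have hmem : (x, y) ∈ P := by
      rw [hP, Finset.mem_filter]; exact ⟨Finset.mem_univ _, hxy, hn⟩
    have e1 : min (b x) (b y) ≤ t := Finset.le_sup (f := fun p : V × V => min (b p.1) (b p.2)) hmem
    obtain ⟨⟨u, v⟩, huv, e2⟩ := Finset.exists_mem_eq_sup P ⟨_, hmem⟩
      (fun p : V × V => min (b p.1) (b p.2))
    rw [← ht] at e2
    simp only at e2
    rw [hP, Finset.mem_filter] at huv
    obtain ⟨_, huv1, huv2⟩ := huv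
    simp only at huv1 huv2
    have e3 : t ≤ max (d x) (d y) := by
      by_contra hcon
      push Not at hcon
      have b1 := h1 x
      have b2 := h1 y
      have b3 := h1 u
      have b4 := h1 v
      have n1 : x ≠ u := by rintro rfl; omega
      have n2 : x ≠ v := by rintro rfl; omega
      have n3 : y ≠ u := by rintro rfl; omega
      have n4 : y ≠ v := by rintro rfl; omega
      have c1 := h x u n1
      have c2 := h x v n2
      have c3 := h y u n3
      have c4 := h y v n4
      omega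
    have e4 := h x y hxy
    have b1 := h1 x
    have b2 := h1 y
    omega
  set Q : Finset V := univ.filter (fun x => ¬ (b x ≤ t ∧ t ≤ d x)) with hQ
  refine ⟨t, Q.sup b', ?_⟩
  intro x
  by_cases hx : b x ≤ t ∧ t ≤ d x
  · exact Or.inl hx
  · right
    have hxQ : x ∈ Q := by rw [hQ, Finset.mem_filter]; exact ⟨Finset.mem_univ _, hx⟩
    refine ⟨Finset.le_sup hxQ, ?_⟩
    obtain ⟨y, hy, e⟩ := Finset.exists_mem_eq_sup Q ⟨x, hxQ⟩ b'
    rw [e]
    rw [hQ, Finset.mem_filter] at hy
    by_cases hxy : x = y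
    · rw [← hxy]; exact h2 x
    · by_contra hcon
      rcases key x y hxy (fun g => hcon g.2) with g | g
      · exact hx g
      · exact hy.2 g

/-- From a triangular system of size `r ≥ 1` we get intervals `[b x, d x]` such that two vertices
with disjoint intervals are adjacent, and every point is in at most `n - r + 1` intervals. -/
theorem intervals {r : ℕ} (hr : 1 ≤ r) (h : Tri G r) : ∃ b d : V → ℕ, (∀ x, b x ≤ d x) ∧
    (∀ x y, d x < b y → G.Adj x y) ∧
    ∀ (t : ℕ) (S : Finset V), (∀ x ∈ S, b x ≤ t ∧ t ≤ d x) → S.card + r ≤ Fintype.card V + 1 := by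
  classical
  obtain ⟨w, z, h1, h2⟩ := h
  obtain ⟨hwi, hzi⟩ := Tri.inj h1 h2
  set b : V → ℕ := fun x => if hx : ∃ i, z i = x then (Classical.choose hx).val else 0 with hb
  set d : V → ℕ := fun x => if hx : ∃ i, w i = x then (Classical.choose hx).val else r - 1 with hd
  have hbz : ∀ i, b (z i) = i.val := by
    intro i
    have hx : ∃ j, z j = z i := ⟨i, rfl⟩
    simp only [hb, dif_pos hx]
    exact congrArg Fin.val (hzi (Classical.choose_spec hx))
  have hdw : ∀ i, d (w i) = i.val := by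
    intro i
    have hx : ∃ j, w j = w i := ⟨i, rfl⟩
    simp only [hd, dif_pos hx]
    exact congrArg Fin.val (hwi (Classical.choose_spec hx))
  have hb0 : ∀ x, (∃ i, z i = x ∧ b x = i.val) ∨ b x = 0 := by
    intro x
    by_cases hx : ∃ i, z i = x
    · obtain ⟨i, rfl⟩ := hx
      exact Or.inl ⟨i, rfl, hbz i⟩
    · right; simp only [hb, dif_neg hx]
  have hd0 : ∀ x, (∃ i, w i = x ∧ d x = i.val) ∨ d x = r - 1 := by
    intro x
    by_cases hx : ∃ i, w i = x
    · obtain ⟨i, rfl⟩ := hx
      exact Or.inl ⟨i, rfl, hdw i⟩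
    · right; simp only [hd, dif_neg hx]
  have hadj : ∀ x y, d x < b y → G.Adj x y := by
    intro x y hlt
    rcases hb0 y with ⟨j, rfl, hj⟩ | hj
    · rcases hd0 x with ⟨i, rfl, hi⟩ | hi
      · apply h1
        rw [Fin.lt_def]
        rw [hi, hj] at hlt
        exact hlt
      · have := j.2; omega
    · omega
  refine ⟨b, d, ?_, hadj, ?_⟩
  · intro x
    by_contra hcon
    push Not at hcon
    exact (hadj x x hcon).ne rfl
  · intro t S hS
    rcases Nat.lt_or_ge t r with ht | ht
    · -- the vertices `z j` with `j > t` and `w i` with `i < t` are outside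
      set T : Finset V := (univ.filter (fun i : Fin r => i.val < t)).image w ∪
        (univ.filter (fun i : Fin r => t < i.val)).image z with hT
      have hdisj : Disjoint ((univ.filter (fun i : Fin r => i.val < t)).image w)
          ((univ.filter (fun i : Fin r => t < i.val)).image z) := by
        rw [Finset.disjoint_left]
        intro x hx hx2
        rw [Finset.mem_image] at hx hx2
        obtain ⟨i, hi, rfl⟩ := hx
        obtain ⟨j, hj, hji⟩ := hx2
        rw [Finset.mem_filter] at hi hj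
        have := h1 i j (by rw [Fin.lt_def]; omega)
        rw [hji] at this
        exact this.ne rfl
      have hTc : T.card = r - 1 := by
        rw [hT, Finset.card_union_of_disjoint hdisj, Finset.card_image_of_injective _ hwi,
          Finset.card_image_of_injective _ hzi]
        have e1 : (univ.filter (fun i : Fin r => i.val < t)).card = t := by
          have : univ.filter (fun i : Fin r => i.val < t) = Finset.Iio (⟨t, ht⟩ : Fin r) := by
            ext i; simp [Fin.lt_def]
          rw [this, Fin.card_Iio]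
        have e2 : (univ.filter (fun i : Fin r => t < i.val)).card = r - 1 - t := by
          have : univ.filter (fun i : Fin r => t < i.val) = Finset.Ioi (⟨t, ht⟩ : Fin r) := by
            ext i; simp [Fin.lt_def]
          rw [this, Fin.card_Ioi]
        rw [e1, e2]; omega
      have hST : Disjoint S T := by
        rw [Finset.disjoint_left]
        intro x hx hxT
        have hx' := hS x hx
        rw [hT, Finset.mem_union, Finset.mem_image, Finset.mem_image] at hxT
        rcases hxT with ⟨i, hi, rfl⟩ | ⟨i, hi, rfl⟩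
        · rw [Finset.mem_filter] at hi
          rw [hdw] at hx'
          omega
        · rw [Finset.mem_filter] at hi
          rw [hbz] at hx'
          omega
      have := Finset.card_le_univ (S ∪ T)
      rw [Finset.card_union_of_disjoint hST, hTc] at this
      omega
    · have hSe : S = ∅ := by
        rw [Finset.eq_empty_iff_forall_notMem]
        intro x hx
        have hx' := hS x hx
        rcases hd0 x with ⟨i, _, hi⟩ | hi
        · have := i.2; omega
        · omega
      rw [hSe, Finset.card_empty]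
      have := Tri.le_card ⟨w, z, h1, h2⟩
      omega

/-- The main inequality. -/
theorem tri_sum {r s : ℕ} (hr : Tri G r) (hs : Tri Gᶜ s) : r + s ≤ Fintype.card V + 2 := by
  classical
  rcases Nat.eq_zero_or_pos r with h0 | h0
  · have := Tri.le_card hs; omega
  rcases Nat.eq_zero_or_pos s with h0' | h0'
  · have := Tri.le_card hr; omega
  obtain ⟨b, d, a1, a2, a3⟩ := intervals h0 hr
  obtain ⟨b', d', c1, c2, c3⟩ := intervals h0' hs
  obtain ⟨t, t', ht⟩ := pierce b d b' d' a1 c1 (by
    intro x y hxy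
    by_contra hcon
    push Not at hcon
    obtain ⟨g1, g2⟩ := hcon
    have k1 : G.Adj x y := by
      by_cases e : b x ≤ d y
      · exact a2 x y (g1 e)
      · push Not at e
        exact (a2 y x e).symm
    have k2 : Gᶜ.Adj x y := by
      by_cases e : b' x ≤ d' y
      · exact c2 x y (g2 e)
      · push Not at e
        exact (c2 y x e).symm
    exact k2.2 k1)
  have e1 := a3 t (univ.filter (fun x => b x ≤ t ∧ t ≤ d x)) (by simp)
  have e2 := c3 t' (univ.filter (fun x => b' x ≤ t' ∧ t' ≤ d' x)) (by simp)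
  have e3 : Fintype.card V ≤ (univ.filter (fun x => b x ≤ t ∧ t ≤ d x)).card +
      (univ.filter (fun x => b' x ≤ t' ∧ t' ≤ d' x)).card := by
    rw [← Finset.card_univ]
    refine le_trans (Finset.card_le_card ?_) (Finset.card_union_le _ _)
    intro x _
    rw [Finset.mem_union, Finset.mem_filter, Finset.mem_filter]
    rcases ht x with g | g
    · exact Or.inl ⟨Finset.mem_univ _, g⟩
    · exact Or.inr ⟨Finset.mem_univ _, g⟩
  omega

/-- A triangular system of `Gᶜ` with as many rows as vertices exists only if `G` has no edges. -/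
theorem no_edge_of_full (hs : Tri Gᶜ (Fintype.card V)) : G = ⊥ := by
  classical
  obtain ⟨u, v, h1, h2⟩ := hs
  obtain ⟨hu, hv⟩ := Tri.inj h1 h2
  have hvb : Function.Bijective v := (Fintype.bijective_iff_injective_and_card v).2 ⟨hv, by simp⟩
  -- `u m = v m` for all `m`
  have key : ∀ m : ℕ, ∀ hm : m < Fintype.card V, u ⟨m, hm⟩ = v ⟨m, hm⟩ := by
    intro m
    induction m using Nat.strong_induction_on with
    | _ m ih =>
      intro hm
      obtain ⟨k, hk⟩ := hvb.2 (u ⟨m, hm⟩)
      rcases lt_trichotomy k.val m with hlt | heq | hgt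
      · have h4 : u k = v k := ih k.val hlt k.2
        have h5 : k = ⟨m, hm⟩ := hu (h4.trans hk)
        rw [h5] at hlt
        exact absurd hlt (lt_irrefl _)
      · have : k = ⟨m, hm⟩ := Fin.ext heq
        rw [← hk, this]
      · have := h1 ⟨m, hm⟩ k (by rw [Fin.lt_def]; exact hgt)
        rw [hk] at this
        exact absurd rfl this.ne
  ext x y
  simp only [SimpleGraph.bot_adj, iff_false]
  intro hxy
  obtain ⟨i, rfl⟩ := hvb.2 x
  obtain ⟨j, rfl⟩ := hvb.2 y
  rcases lt_trichotomy i j with hlt | heq | hgt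
  · have := h1 i j hlt
    rw [key i.val i.2] at this
    exact this.2 hxy
  · rw [heq] at hxy; exact hxy.ne rfl
  · have := h1 j i hgt
    rw [key j.val j.2] at this
    exact this.2 hxy.symm

/-- A triangular system of size 3 needs three edges. -/
theorem three_edges (h : Tri G 3) : 3 ≤ G.edgeSet.ncard := by
  classical
  obtain ⟨w, z, h1, h2⟩ := h
  obtain ⟨hw, hz⟩ := Tri.inj h1 h2
  have a1 := h1 0 1 (by decide)
  have a2 := h1 0 2 (by decide)
  have a3 := h1 1 2 (by decide)
  have hsub : (({s(w 0, z 1), s(w 0, z 2), s(w 1, z 2)} : Finset (Sym2 V)) : Set (Sym2 V)) ⊆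
      G.edgeSet := by
    intro e he
    simp only [Finset.coe_insert, Finset.coe_singleton, Set.mem_insert_iff,
      Set.mem_singleton_iff] at he
    rcases he with rfl | rfl | rfl
    · exact a1
    · exact a2
    · exact a3
  have hfin : G.edgeSet.Finite := Set.toFinite _
  refine le_trans ?_ (Set.ncard_le_ncard hsub hfin)
  rw [Set.ncard_coe_finset]
  have n1 : z 1 ≠ z 2 := fun e => absurd (hz e) (by decide)
  have n2 : w 0 ≠ w 1 := fun e => absurd (hw e) (by decide)
  have n3 : w 0 ≠ z 2 := a2.ne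
  have n4 : w 0 ≠ z 1 := a1.ne
  rw [Finset.card_insert_of_notMem, Finset.card_insert_of_notMem, Finset.card_singleton]
  · rw [Finset.mem_singleton]
    intro e
    rw [Sym2.eq_iff] at e
    rcases e with ⟨e, _⟩ | ⟨e, _⟩
    · exact n2 e
    · exact n3 e
  · rw [Finset.mem_insert, Finset.mem_singleton, not_or]
    refine ⟨fun e => ?_, fun e => ?_⟩
    · rw [Sym2.eq_iff] at e
      rcases e with ⟨_, e⟩ | ⟨e, _⟩
      · exact n1 e
      · exact n3 e
    · rw [Sym2.eq_iff] at e
      rcases e with ⟨e, _⟩ | ⟨e, _⟩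
      · exact n2 e
      · exact n3 e

theorem crk_bot_le : crk (⊥ : SimpleGraph V) ≤ 1 := by
  by_contra hcon
  push Not at hcon
  obtain ⟨w, z, h1, _⟩ := (tri_crk (G := (⊥ : SimpleGraph V))).mono (show 2 ≤ _ by omega)
  exact (h1 0 1 (by decide))

end fin

/-! ### Upper bounds for the sum -/

theorem sum_le (n : ℕ) (G : SimpleGraph (Fin n)) : crk G + crk Gᶜ ≤ n + 2 := by
  simpa using tri_sum (tri_crk (G := G)) (tri_crk (G := Gᶜ))

theorem crk_le (n : ℕ) (G : SimpleGraph (Fin n)) : crk G ≤ n := by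
  simpa using Tri.le_card (tri_crk (G := G))

theorem compl_full (n : ℕ) (G : SimpleGraph (Fin n)) (h : crk Gᶜ = n) : G = ⊥ := by
  apply no_edge_of_full
  rw [Fintype.card_fin]
  have := tri_crk (G := Gᶜ)
  rwa [h] at this

theorem sum_le_small (n : ℕ) (hn : n ≤ 3) (G : SimpleGraph (Fin n)) :
    crk G + crk Gᶜ ≤ n + 1 := by
  have a1 := crk_le n G
  have a2 := crk_le n Gᶜ
  by_cases h1 : crk Gᶜ = n
  · have := compl_full n G h1
    subst this
    have := crk_bot_le (V := Fin n)
    omega
  · by_cases h2 : crk G = n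
    · have : Gᶜ = ⊥ := compl_full n Gᶜ (by rw [compl_compl]; exact h2)
      rw [this]
      have := crk_bot_le (V := Fin n)
      omega
    · omega

theorem sum_le_few (n : ℕ) (G : SimpleGraph (Fin n)) (hE : G.edgeSet.ncard < 3) :
    crk G + crk Gᶜ ≤ n + 1 := by
  by_cases h1 : crk Gᶜ = n
  · have := compl_full n G h1
    subst this
    have := crk_bot_le (V := Fin n)
    omega
  · have a2 := crk_le n Gᶜ
    have a1 : crk G ≤ 2 := by
      by_contra hcon
      push Not at hcon
      have := three_edges ((tri_crk (G := G)).mono (show 3 ≤ _ by omega))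
      omega
    omega

/-! ### Examples -/

theorem crk_empty (n : ℕ) (hn : 1 ≤ n) :
    n + 1 ≤ crk (⊥ : SimpleGraph (Fin n)) + crk (⊥ : SimpleGraph (Fin n))ᶜ := by
  have h1 : 1 ≤ crk (⊥ : SimpleGraph (Fin n)) :=
    le_crk ⟨fun _ => ⟨0, hn⟩, fun _ => ⟨0, hn⟩, fun i j hij => by omega, fun _ h => h⟩
  have h2 : n ≤ crk (⊥ : SimpleGraph (Fin n))ᶜ :=
    le_crk ⟨fun i => i, fun i => i, fun i j hij => by
      rw [SimpleGraph.compl_adj]; exact ⟨hij.ne, fun h => h⟩, fun i h => h.ne rfl⟩
  omega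

/-- The path `0 - 1 - 2 - 3` with `n - 4` isolated vertices. -/
def P4 (n : ℕ) : SimpleGraph (Fin n) where
  Adj x y := (x.val + 1 = y.val ∧ y.val ≤ 3) ∨ (y.val + 1 = x.val ∧ x.val ≤ 3)
  symm := ⟨fun _ _ h => h.symm⟩
  loopless := ⟨fun _ h => by omega⟩

theorem P4_edges (n : ℕ) (hn : 4 ≤ n) : (P4 n).edgeSet.ncard = 3 := by
  classical
  have : (P4 n).edgeSet = (({s(⟨0, by omega⟩, ⟨1, by omega⟩), s(⟨1, by omega⟩, ⟨2, by omega⟩),
      s(⟨2, by omega⟩, ⟨3, by omega⟩)} : Finset (Sym2 (Fin n))) : Set (Sym2 (Fin n))) := by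
    ext e
    induction e using Sym2.ind with
    | _ x y =>
      rw [SimpleGraph.mem_edgeSet]
      simp only [Finset.coe_insert, Finset.coe_singleton, Set.mem_insert_iff,
        Set.mem_singleton_iff, Sym2.eq_iff, Fin.ext_iff, P4]
      omega
  rw [this, Set.ncard_coe_finset]
  rw [Finset.card_insert_of_notMem, Finset.card_insert_of_notMem, Finset.card_singleton]
  · simp [Sym2.eq_iff, Fin.ext_iff]
  · simp [Sym2.eq_iff, Fin.ext_iff]

/-- rows of a triangular system for the complement of `P4 n` -/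
def rv (n i : ℕ) : ℕ := if i + 4 < n then i + 4 else if i + 4 = n then 0 else
  if i + 3 = n then 1 else 3

/-- columns of a triangular system for the complement of `P4 n` -/
def cv (n i : ℕ) : ℕ := if i + 4 < n then i + 4 else if i + 4 = n then 0 else
  if i + 3 = n then 2 else 3

theorem rv_spec (n i : ℕ) : (i + 4 < n ∧ rv n i = i + 4) ∨ (i + 4 = n ∧ rv n i = 0) ∨
    (i + 3 = n ∧ rv n i = 1) ∨ (n < i + 3 ∧ rv n i = 3) := by
  unfold rv
  split_ifs <;> omega

theorem cv_spec (n i : ℕ) : (i + 4 < n ∧ cv n i = i + 4) ∨ (i + 4 = n ∧ cv n i = 0) ∨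
    (i + 3 = n ∧ cv n i = 2) ∨ (n < i + 3 ∧ cv n i = 3) := by
  unfold cv
  split_ifs <;> omega

theorem rv_lt (n i : ℕ) (hn : 4 ≤ n) : rv n i < n := by
  have := rv_spec n i
  omega

theorem cv_lt (n i : ℕ) (hn : 4 ≤ n) : cv n i < n := by
  have := cv_spec n i
  omega

theorem P4_sum (n : ℕ) (hn : 4 ≤ n) : n + 2 ≤ crk (P4 n) + crk (P4 n)ᶜ := by
  have h1 : 3 ≤ crk (P4 n) := by
    apply le_crk
    refine ⟨![⟨1, by omega⟩, ⟨3, by omega⟩, ⟨2, by omega⟩],
      ![⟨1, by omega⟩, ⟨0, by omega⟩, ⟨2, by omega⟩], ?_, ?_⟩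
    · intro i j hij
      fin_cases i <;> fin_cases j <;> simp [P4] at hij ⊢
    · intro i
      fin_cases i <;> simp [P4]
  have h2 : n - 1 ≤ crk (P4 n)ᶜ := by
    apply le_crk
    -- rows and columns
    refine ⟨fun i => ⟨rv n i.val, rv_lt n i.val hn⟩, fun i => ⟨cv n i.val, cv_lt n i.val hn⟩,
      ?_, ?_⟩
    · intro i j hij
      have hi := i.2
      have hj := j.2
      rw [Fin.lt_def] at hij
      have e1 := rv_spec n i.val
      have e2 := cv_spec n j.val
      rw [SimpleGraph.compl_adj]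
      constructor
      · intro h
        have h' : rv n i.val = cv n j.val := congrArg Fin.val h
        omega
      · intro h
        have h' : (rv n i.val + 1 = cv n j.val ∧ cv n j.val ≤ 3) ∨
          (cv n j.val + 1 = rv n i.val ∧ rv n i.val ≤ 3) := h
        omega
    · intro i h
      have hi := i.2
      have e1 := rv_spec n i.val
      have e2 := cv_spec n i.val
      rw [SimpleGraph.compl_adj] at h
      obtain ⟨h3, h4⟩ := h
      have h3' : rv n i.val ≠ cv n i.val := fun e => h3 (Fin.ext e)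
      have h4' : ¬ ((rv n i.val + 1 = cv n i.val ∧ cv n i.val ≤ 3) ∨
          (cv n i.val + 1 = rv n i.val ∧ rv n i.val ≤ 3)) := h4
      omega
  omega

/-! ### The theorem -/

theorem bddM (n : ℕ) : BddAbove {s | ∃ G : SimpleGraph (Fin n), crk G + crk Gᶜ = s} := by
  refine ⟨n + 2, ?_⟩
  rintro _ ⟨G, rfl⟩
  exact sum_le n G

theorem neM (n : ℕ) : {s | ∃ G : SimpleGraph (Fin n), crk G + crk Gᶜ = s}.Nonempty :=
  ⟨_, ⊥, rfl⟩

theorem M_eq_small (n : ℕ) (hn1 : 1 ≤ n) (hn : n ≤ 3) : M n = n + 1 := by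
  apply le_antisymm
  · unfold M
    apply csSup_le (neM n)
    rintro _ ⟨G, rfl⟩
    exact sum_le_small n hn G
  · exact le_trans (crk_empty n hn1) (le_csSup (bddM n) ⟨⊥, rfl⟩)

theorem M_eq_large (n : ℕ) (hn : 4 ≤ n) : M n = n + 2 := by
  apply le_antisymm
  · unfold M
    apply csSup_le (neM n)
    rintro _ ⟨G, rfl⟩
    exact sum_le n G
  · exact le_trans (P4_sum n hn) (le_csSup (bddM n) ⟨P4 n, rfl⟩)

/-- **Q1 of MP_47eac2_co.** For every `n ≥ 1`: `M(n) = n + 1` if `n ≤ 3` and `M(n) = n + 2` if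
`n ≥ 4`, and the smallest number of edges of an `n`-vertex graph `G` with
`c-rk G + c-rk Gᶜ = M(n)` is `0` if `n ≤ 3` and `3` if `n ≥ 4`. -/
theorem result : ∀ n : ℕ, 1 ≤ n →
    M n = (if n ≤ 3 then n + 1 else n + 2) ∧
    IsLeast {e | ∃ G : SimpleGraph (Fin n), crk G + crk Gᶜ = M n ∧ G.edgeSet.ncard = e}
      (if n ≤ 3 then 0 else 3) := by
  intro n hn
  by_cases h : n ≤ 3
  · rw [if_pos h, if_pos h]
    have hM := M_eq_small n hn h
    refine ⟨hM, ⟨⊥, ?_, by simp⟩, fun e _ => Nat.zero_le e⟩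
    rw [hM]
    exact le_antisymm (sum_le_small n h ⊥) (crk_empty n hn)
  · rw [if_neg h, if_neg h]
    have hM := M_eq_large n (by omega)
    refine ⟨hM, ⟨P4 n, ?_, P4_edges n (by omega)⟩, ?_⟩
    · rw [hM]
      exact le_antisymm (sum_le n _) (P4_sum n (by omega))
    · rintro e ⟨G, hG, rfl⟩
      by_contra hcon
      push Not at hcon
      have := sum_le_few n G hcon
      omega

end Pool.Agent.Results.MP_47eac2_co.FewestEdgesMaxSum
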